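import Pool.Agent.Helper1.TE.Goals2

set_option autoImplicit false

namespace Pool.Agent.Helper27.TE

open Pool.Agent.Helper1.TE
open Pool.Agent.Helper65.LinSpace (dig tab nrec ifz eq01 le01 lt01 capPow Ctx)

theorem acc_eq (ok : ℕ → ℕ → ℕ) (tst : ℕ → ℕ) (mal : ℕ) (x : Sta) (n : ℕ) (hn : x.mo = n)
    (h : n ≠ 8) : (machM ok tst mal).acc x = 0 := by
  change eq01 x.mo 8 = 0
  rw [hn]
  exact if_neg h

theorem gFS : GoalFS := by
  intro hstep ok tst mal w x hx
  have hinv : ∀ x, (machM ok tst mal).Reach w x → Inv ok tst mal w x := by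
    intro x hx
    unfold NumMach.Reach at hx
    induction hx with
    | refl => exact Inv.m0 0 (fun i hi => absurd hi (Nat.not_lt_zero i))
    | tail _ hbc ih =>
      obtain ⟨γ, hγ, rfl⟩ := hbc
      exact hstep ok tst mal w _ γ hγ ih
  refine ⟨hinv x hx, ?_⟩
  intro hacc
  cases hinv x hx with
  | rej => exact absurd (acc_eq ok tst mal _ 9 rfl (by decide)) hacc
  | m0 h h1 => exact absurd (acc_eq ok tst mal _ 0 rfl (by decide)) hacc
  | m1 h b h1 => exact absurd (acc_eq ok tst mal _ 1 rfl (by decide)) hacc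
  | m2 h b u h1 hu h2 => exact absurd (acc_eq ok tst mal _ 2 rfl (by decide)) hacc
  | m3 h b u h1 hu h2 h3 => exact absurd (acc_eq ok tst mal _ 3 rfl (by decide)) hacc
  | m4 h b h1 h2 h3 => exact absurd (acc_eq ok tst mal _ 4 rfl (by decide)) hacc
  | m5 h b h1 h2 h3 h4 => exact absurd (acc_eq ok tst mal _ 5 rfl (by decide)) hacc
  | m6 h b u h1 hu => exact absurd (acc_eq ok tst mal _ 6 rfl (by decide)) hacc
  | m7 h b u τ g v C h1 hτ hu hg hv hC =>
    exact absurd (acc_eq ok tst mal _ 7 rfl (by decide)) hacc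
  | m8 h1 => exact h1

end Pool.Agent.Helper27.TE
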