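import Pool.Agent.Helper1.TE.Goals3

set_option autoImplicit false

namespace Pool.Agent.Helper27.TE

open Pool.Agent.Helper1.TE
open Pool.Agent.Helper65.LinSpace
open Finset

theorem bitc_le (b a p i : ℕ) : bitc b a p i ≤ 1 := by
  unfold bitc
  have := Nat.mod_lt (∑ t ∈ range b, dig 2 p t * (if t ≤ i then dig 2 a (i - t) else 0))
    (show 0 < 2 by norm_num)
  omega

theorem bitc_eq (b a p i : ℕ) : bitc b a p i =
    (∑ t ∈ range b, dig 2 p t * ifz (le01 t i) 0 (dig 2 a (i - t))) % 2 := by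
  unfold bitc
  congr 1
  refine sum_congr rfl fun t _ => ?_
  unfold ifz le01
  split_ifs with h1 h2 h2 <;> simp_all

theorem ls_bitc0 : LS (fun x : ℕ × ℕ × ℕ × ℕ => bitc x.1 x.2.1 x.2.2.1 x.2.2.2) := by
  refine LS.congr (LS.sumMod (α := ℕ × ℕ × ℕ × ℕ)
    (f := fun x t => dig 2 x.2.2.1 t * ifz (le01 t x.2.2.2) 0 (dig 2 x.2.1 (x.2.2.2 - t)))
    (N := fun x => x.1) (p := fun _ => 2) (by fun_prop) (by fun_prop) (by fun_prop)
    (fun _ => by norm_num)) fun x => bitc_eq _ _ _ _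

variable {α : Type} [Ctx α]

theorem ls_bitc {b a p i : α → ℕ} (hb : LS b) (ha : LS a) (hp : LS p) (hi : LS i) :
    LS (fun x => bitc (b x) (a x) (p x) (i x)) :=
  LS.comp (g := fun x : ℕ × ℕ × ℕ × ℕ => bitc x.1 x.2.1 x.2.2.1 x.2.2.2)
    (f := fun x => (b x, a x, p x, i x)) ls_bitc0 (by fun_prop)

theorem ls_wt {b a p : α → ℕ} (hb : LS b) (ha : LS a) (hp : LS p) :
    LS (fun x => wt (b x) (a x) (p x)) := by
  unfold wt
  refine LS.sum_le (f := fun x i => bitc (b x) (a x) (p x) i) (N := fun x => 4 * b x)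
    (B := fun _ => 1) ?_ (by fun_prop) (by fun_prop) (fun _ _ _ => bitc_le _ _ _ _)
  exact ls_bitc (by fun_prop) (by fun_prop) (by fun_prop) (by fun_prop)

theorem ls_good {b W a : α → ℕ} (hb : LS b) (hW : LS W) (ha : LS a) :
    LS (fun x => good01 (b x) (W x) (a x)) := by
  unfold good01
  refine LS.ifz ?_ (by fun_prop) (by fun_prop)
  refine LS.sum_le (f := fun x p => lt01 0 p * lt01 (4 * wt (b x) (a x) p) (b x))
    (N := fun x => capPow 2 (b x) (W x)) (B := fun _ => 1) ?_ (by fun_prop) (by fun_prop)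
    (fun _ _ _ => ?_)
  · have h : LS (fun q : α × ℕ => wt (b q.1) (a q.1) q.2) :=
      ls_wt (by fun_prop) (by fun_prop) (by fun_prop)
    fun_prop
  · unfold lt01
    split_ifs <;> simp

theorem nrec_seed_le (f : ℕ → ℕ) (n : ℕ) : nrec 0 (fun i r => ifz (f i) r i) n ≤ n := by
  induction n with
  | zero => exact le_rfl
  | succ n ih =>
    rw [nrec_succ]
    unfold ifz at ih ⊢
    split_ifs
    · exact ih.trans (Nat.le_succ n)
    · exact Nat.le_succ n

theorem ls_seed : LS (fun x : ℕ × ℕ => seed x.1 x.2) := by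
  unfold seed
  refine LS.nrec (G := fun _ : ℕ × ℕ => 0) (N := fun x => capPow 2 (3 * x.1) x.2)
    (C := fun x => capPow 2 (3 * x.1) x.2)
    (K := fun x i r => ifz (good01 x.1 x.2 i) r i) (by fun_prop) (by fun_prop) (by fun_prop) ?_
    (fun x i hi => (nrec_seed_le _ i).trans hi)
  have h : LS (fun p : (ℕ × ℕ) × ℕ × ℕ => good01 p.1.1 p.1.2 p.2.1) :=
    ls_good (by fun_prop) (by fun_prop) (by fun_prop)
  exact LS.ifz h (by fun_prop) (by fun_prop)

theorem gLSD : GoalLSD := ⟨ls_bitc0, ls_seed⟩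

end Pool.Agent.Helper27.TE
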